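import Mathlib
import Pool.Agent.Y335.FL.CircEx
import Pool.Agent.R926.SC.Cog

set_option autoImplicit false

/-!
# Cographic 2-blocks with a chain of short cocycles (MP_aa6b05_co)

Let `S` be a set of nonzero vectors over GF(2) which represents the cographic matroid of a graph, and
let `l_1, ..., l_m` be linear functionals such that for each `i` at most four elements of `S` are
zeros of `l_1, ..., l_{i-1}` and not of `l_i`: at each step a cocycle with at most four elements is
deleted.  If the set of the remaining elements has rank at most nine, or if at most sixteen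
components of the graph whose edges are the deleted elements have an odd number of boundary edges,
and `S` is a 2-block, then `S` has a RESTRICTION `M*(P₁₀)` (no contraction is needed).  If `S` is
tangential, it is `M*(P₁₀)`.

The case `m = 0` with rank at most nine is the starting result `RankNine`.  For `m > 0` the rank of
`S` is not bounded: the functionals are arbitrary in number, and only what remains must be small.

Proof.  A cocycle of a cographic matroid with at most four elements is a cycle with at most four
edges in the graph, deletion in the cographic matroid is contraction in the graph, and circuits with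
at most four edges can be contracted for nowhere-zero 4-flows (`R926/SC/Kempe.lean`); the contracted
graph has at most sixteen vertices of odd degree, and the theorem of the starting library
`TH362/TF` applies to it.
-/

namespace Pool.Agent.Results.MP_aa6b05_co.ShortCocycles

/-- The incidence vector of the vertex `v` over GF(2): the coordinate of an edge is the number of
its ends which are `v`, modulo 2 (so loops give 0). -/
def star {V E : Type} [DecidableEq V] (src dst : E → V) (v : V) : E → ZMod 2 :=
  fun e => (if src e = v then 1 else 0) + (if dst e = v then 1 else 0)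

/-- The vectors `vec e` represent the cographic matroid of the graph: the linear relations between
them are exactly the elements of the cut space, which is spanned by the incidence vectors. -/
def RepresentsCographic {V E : Type} [DecidableEq V] [Fintype E] (src dst : E → V) {n : ℕ}
    (vec : E → Fin n → ZMod 2) : Prop :=
  ∀ x : E → ZMod 2, ∑ e, x e • vec e = 0 ↔
    x ∈ Submodule.span (ZMod 2) (Set.range (star src dst))

/-- The edges with exactly one end in `Y`. -/
def boundary {V E : Type} [DecidableEq V] [Fintype E] (src dst : E → V) (Y : Finset V) :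
    Finset E :=
  Finset.univ.filter (fun e => ¬ (src e ∈ Y ↔ dst e ∈ Y))

/-- The component of `x` in the graph with the vertices `V` and the edges `F`. -/
noncomputable def component {V E : Type} [Fintype V] (src dst : E → V) (F : Finset E) (x : V) :
    Finset V :=
  open Classical in Finset.univ.filter (fun y =>
    Relation.EqvGen (fun a b => ∃ e ∈ F, src e = a ∧ dst e = b) x y)

/-- The simple matroid represented by the set `S` of vectors over GF(2) is a 2-block: `S` has no
zero vector and no linear map to the plane over GF(2) is nonzero on all of `S`. -/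
def IsTwoBlock {n : ℕ} (S : Set (Fin n → ZMod 2)) : Prop :=
  (0 : Fin n → ZMod 2) ∉ S ∧
    ¬ ∃ L : (Fin n → ZMod 2) →ₗ[ZMod 2] (Fin 2 → ZMod 2), ∀ s ∈ S, L s ≠ 0

/-- `S` represents a tangential 2-block: it is a 2-block, and no proper minor without loops
(contract `C`, keep `T`) is a 2-block. This is the hypothesis of the frozen statement S10691. -/
def IsTangential {n : ℕ} (S : Set (Fin n → ZMod 2)) : Prop :=
  IsTwoBlock S ∧
    ∀ C T : Set (Fin n → ZMod 2), C ⊆ S → T ⊆ S → T ≠ S →
      (∀ t ∈ T, t ∉ Submodule.span (ZMod 2) C) →
      ∃ L : (Fin n → ZMod 2) →ₗ[ZMod 2] (Fin 2 → ZMod 2),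
        (∀ c ∈ C, L c = 0) ∧ ∀ t ∈ T, L t ≠ 0

/-- The cut space of the Petersen graph: vertices `0, ..., 9`, edges `0, ..., 14`. -/
def petersenCuts : Submodule (ZMod 2) (Fin 15 → ZMod 2) :=
  Submodule.span (ZMod 2) (Set.range (fun v : Fin 10 => fun k : Fin 15 =>
    if (![0,1,2,3,4,5,6,7,8,9,0,1,2,3,4] : Fin 15 → Fin 10) k = v ∨
       (![1,2,3,4,0,7,8,9,5,6,5,6,7,8,9] : Fin 15 → Fin 10) k = v
    then (1 : ZMod 2) else 0))

/-- Let `S` be a set of vectors over GF(2) which represents the cographic matroid of a graph (with
the edges in bijection with `S`), and let `l i` be linear functionals, such that for each `i` at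
most four elements of `S` are zeros of all earlier functionals and not of `l i`.  Suppose that the
elements of `S` which are zeros of all functionals have rank at most nine, or that at most sixteen
components of the graph formed by the other elements have an odd number of boundary edges.  If `S`
is a 2-block then `S` contains 15 different vectors which represent the cographic matroid of the
Petersen graph; if `S` is a tangential 2-block then `S` is the cographic matroid of the Petersen
graph, in the form of the frozen statement S10691. -/
theorem result :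
    ∀ (n : ℕ) (S : Set (Fin n → ZMod 2)) (V E : Type) [Fintype V] [DecidableEq V] [Fintype E]
      [DecidableEq E] (src dst : E → V) (vec : E → Fin n → ZMod 2),
      RepresentsCographic src dst vec → Function.Injective vec → Set.range vec = S →
      ∀ (m : ℕ) (l : Fin m → (Fin n → ZMod 2) →ₗ[ZMod 2] ZMod 2),
      (∀ i, {x | x ∈ S ∧ l i x ≠ 0 ∧ ∀ j, j < i → l j x = 0}.ncard ≤ 4) →
      (((Finset.univ.image (component src dst
          (Finset.univ.filter (fun e => ∃ i, l i (vec e) ≠ 0)))).filter
          (fun X => Odd (boundary src dst X).card)).card ≤ 16 ∨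
        Module.finrank (ZMod 2) (Submodule.span (ZMod 2) {x | x ∈ S ∧ ∀ i, l i x = 0}) ≤ 9) →
      (IsTwoBlock S → ∃ t : Fin 15 → Fin n → ZMod 2,
        Set.range t ⊆ S ∧ Function.Injective t ∧
        ∀ x : Fin 15 → ZMod 2, ∑ k, x k • t k = 0 ↔ x ∈ petersenCuts) ∧
      (IsTangential S → ∃ ψ : (Fin 15 → ZMod 2) →ₗ[ZMod 2] (Fin n → ZMod 2),
        LinearMap.ker ψ = petersenCuts ∧
        ⇑ψ '' Set.range (fun k : Fin 15 => (Pi.single k (1 : ZMod 2) : Fin 15 → ZMod 2)) = S) := by
  classical
  intro n S V E _ _ _ _ src dst vec hv hinjv hr m l h4 h9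
  have hv' : TH676.Blk.RepCo src dst vec := hv
  have hPC : TH676.Blk.PC = petersenCuts := rfl
  have main : IsTwoBlock S → ∃ t : Fin 15 → Fin n → ZMod 2,
        Set.range t ⊆ S ∧ Function.Injective t ∧
        ∀ x : Fin 15 → ZMod 2, ∑ k, x k • t k = 0 ↔ x ∈ TH676.Blk.PC := by
    rintro ⟨hz, hL⟩
    have h0 : ∀ e, vec e ≠ 0 := by
      intro e he
      apply hz
      rw [← hr, ← he]
      exact ⟨e, rfl⟩
    have hbr := hv'.br h0
    have hN1 := Y642.RN.n1_of hbr
    have hnz : ¬ TH499.TF.NZ src dst := by
      intro h
      obtain ⟨L, hL'⟩ := hv'.map h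
      apply hL
      refine ⟨L, fun s hs => ?_⟩
      rw [← hr] at hs
      obtain ⟨e, rfl⟩ := hs
      exact hL' e
    have hPM : TH362.Multi.ContractsToPetersen src dst := by
      subst hr
      rcases R926.SC.cog Pool.Agent.Y335.FL.circEx hv' hinjv h0 m l h4 h9 with h | h
      · exact absurd (Y642.RN.nz_of h) hnz
      · exact TH362.TF.contracts src dst hN1 h
    obtain ⟨ed, hx⟩ := Y642.RN.restr hv' hPM
    refine ⟨fun k => vec (ed k), ?_, ?_, hx⟩
    · rintro _ ⟨k, rfl⟩
      rw [← hr]
      exact ⟨ed k, rfl⟩
    · intro k l hkl
      by_contra hne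
      apply TH676.Blk.pair_not_mem k l hne
      rw [← hx]
      simp only [Pi.add_apply, add_smul]
      rw [Finset.sum_add_distrib]
      simp only [Pi.single_apply, ite_smul, one_smul, zero_smul, Finset.sum_ite_eq',
        Finset.mem_univ, if_true]
      have h3 : vec (ed k) = vec (ed l) := hkl
      rw [h3]
      funext i
      exact CharTwo.add_self_eq_zero _
  refine ⟨main, ?_⟩
  rintro ⟨h2, htan⟩
  obtain ⟨t, ht, hinj, hx⟩ := main h2
  have hsum1 : ∀ k, ∑ m, (Pi.single k 1 : Fin 15 → ZMod 2) m • t m = t k := by
    intro k
    simp only [Pi.single_apply, ite_smul, one_smul, zero_smul, Finset.sum_ite_eq',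
      Finset.mem_univ, if_true]
  have hsp : ∀ k, t k ∉ Submodule.span (ZMod 2) (∅ : Set (Fin n → ZMod 2)) := by
    intro k hk
    rw [Submodule.span_empty, Submodule.mem_bot] at hk
    apply TH676.Blk.single_not_mem k
    rw [← hx, hsum1]
    exact hk
  have hTS : Set.range t = S := by
    by_contra hne
    obtain ⟨L, _, hL2⟩ := htan ∅ (Set.range t) (Set.empty_subset _) ht hne (by
      rintro _ ⟨k, rfl⟩
      exact hsp k)
    obtain ⟨k, hk⟩ := TH676.Blk.pet_flow (fun k => ((L (t k)) 0, (L (t k)) 1)) (by
      intro x hxP
      have h4 : L (∑ k, x k • t k) = 0 := by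
        rw [(hx x).mpr hxP, map_zero]
      rw [map_sum] at h4
      simp only [map_smul] at h4
      have h5 := congrFun h4 0
      have h6 := congrFun h4 1
      rw [Finset.sum_apply] at h5 h6
      refine Prod.ext ?_ ?_
      · rw [Prod.fst_sum]
        exact h5
      · rw [Prod.snd_sum]
        exact h6)
    apply hL2 (t k) ⟨k, rfl⟩
    funext i
    fin_cases i
    · exact congrArg Prod.fst hk
    · exact congrArg Prod.snd hk
  refine ⟨Fintype.linearCombination (ZMod 2) t, ?_, ?_⟩
  · ext x
    rw [LinearMap.mem_ker, Fintype.linearCombination_apply, ← hPC, ← hx]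
  · ext s
    rw [← hTS]
    constructor
    · rintro ⟨_, ⟨k, rfl⟩, rfl⟩
      refine ⟨k, ?_⟩
      rw [Fintype.linearCombination_apply]
      exact (hsum1 k).symm
    · rintro ⟨k, rfl⟩
      refine ⟨_, ⟨k, rfl⟩, ?_⟩
      rw [Fintype.linearCombination_apply]
      exact hsum1 k

end Pool.Agent.Results.MP_aa6b05_co.ShortCocycles
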